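import Pool.Agent.H53.GM.Targets2
import Pool.Agent.H40.GM.SWI

/-!
`MP_6ab439_lc`, forbidden coloured patterns: row NXT (the next level).
-/

set_option autoImplicit false
set_option linter.unusedVariables false

namespace Pool.Agent.H44.GM

open Pool.Agent.H68.BP Pool.Agent.H58.SF Pool.Agent.H53.GC Pool.Agent.H53.GR Pool.Agent.H53.GM
open Pool.Agent.H40.GM (fmI_pr fmI_sub iot_sub)
open Classical

/-- the shift of a word of length `p` -/
theorem shift_exists (p : ℕ) [Fact p.Prime] :
    ∃ (σ : ZMod p → Fin p), Function.Bijective σ := by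
  have h0 : NeZero p := ⟨(Fact.out : p.Prime).ne_zero⟩
  exact ⟨(ZMod.finEquiv p).symm, (ZMod.finEquiv p).symm.bijective⟩

theorem pf_NXT (hPIN : Pool.Agent.H53.GM.T_PIN) (hGRW : Pool.Agent.H53.GM.T_GRW) :
    Pool.Agent.H53.GM.T_NXT := by
  intro X 𝓛 _ N k R l₀ rd I I' ι hB hι hII hloc hcyc
  obtain ⟨p, hp1, hp2⟩ := Nat.exists_infinite_primes (Nat.card (So N k → X) + 1)
  have hfact : Fact p.Prime := ⟨hp2⟩
  obtain ⟨q, hq, hqc⟩ := hcyc p (by omega)
  obtain ⟨σ, hσ⟩ := shift_exists p
  have hSo : Finite (So N k) := by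
    unfold So
    infer_instance
  have hY : Finite (So N k → (Fin 2 → X) → X) := inferInstance
  obtain ⟨n, hn, hχ⟩ := hGRW p (So N k → (Fin 2 → X) → X) hp2.pos
  obtain ⟨n', rfl⟩ : ∃ n', n = n' + 1 := ⟨n - 1, by omega⟩
  obtain ⟨F, hF, hFι, hFe⟩ := hPIN X 𝓛 N k R l₀ rd I ι hB hι n'
  obtain ⟨S, κ, c, hS, hSκ, hc⟩ := hχ (fun s i => mnr s (F i))
  have hc' : ∀ (y : Fin p → Fin 2) (j : Fin p),
      (fun e w => F (κ j) e (fun i => w (S y i))) = c (y j) := hc
  -- agreement at the sorts which do not contain `I'` strictly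
  have hnl : ∀ e : So N k, ¬ I' ⊂ e.1 → ¬ Loc R l₀ I ι e := fun e he hl => he (hloc e hl)
  -- the family `Q`
  let Q : So N k → (Fin (n' + 1) → X) → X := fun e w => q e (fun i => F (κ (σ i)) e w)
  have hQ : FmI R I (Fin (n' + 1)) Q := by
    refine ⟨fun l x hx => ?_, fun e t => ?_⟩
    · have hx0 : VT R l₀ I x := ⟨fun i => hB.base l _ (hx.1 i), hx.2⟩
      refine hq.fam l (fun i e => F (κ (σ i)) e (fun j => x j e)) ⟨fun i => ?_, ?_⟩
      · exact (hF _).fam l x hx
      · intro e he i i'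
        exact hFe e (hnl e he) _ _ x hx0
    · change q e (fun i => F (κ (σ i)) e (fun _ => t)) = t
      have : (fun i : ZMod p => F (κ (σ i)) e (fun _ => t)) = fun _ => t :=
        funext fun i => (hF _).idem e t
      rw [this]
      exact hq.idem e t
  -- its minors
  have hQy : ∀ y : Fin p → Fin 2, (fun e (w : Fin 2 → X) => Q e (fun i => w (S y i))) =
      fun e w => q e (fun i => c (y (σ i)) e w) := by
    intro y
    funext e w
    change q e (fun i => F (κ (σ i)) e (fun j => w (S y j))) = _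
    congr 1
    funext i
    exact congrFun (congrFun (hc' y (σ i)) e) w
  have hιQ : ∀ y : Fin p → Fin 2,
      ι (Fin 2) (fun e (w : Fin 2 → X) => Q e (fun i => w (S y i))) = S y (ι _ Q) :=
    fun y => iot_sub hι (S y) hQ
  -- the families `c b`
  have hj : ∃ j : Fin p, True := ⟨⟨0, hp2.pos⟩, trivial⟩
  obtain ⟨j₀, -⟩ := hj
  have hcF : ∀ b, FmI R I (Fin 2) (c b) := by
    intro b
    rw [← hc' (fun _ => b) j₀]
    exact fmI_sub (S fun _ => b) (hF _)
  have hcι : ∀ b, ι (Fin 2) (c b) = b := by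
    intro b
    rw [← hc' (fun _ => b) j₀, iot_sub hι (S fun _ => b) (hF _), hFι, hSκ]
  -- constant words
  have hconst : ∀ b : Fin 2, S (fun _ => b) (ι _ Q) = b := by
    intro b
    rw [← hιQ, hQy]
    have : (fun e (w : Fin 2 → X) => q e (fun _ : ZMod p => c b e w)) = c b := by
      funext e w
      exact hq.idem e _
    rw [this]
    exact hcι b
  -- shifted words
  have hshift : ∀ y y' : Fin p → Fin 2, (∀ i : ZMod p, y' (σ i) = y (σ (i + 1))) →
      S y' (ι _ Q) = S y (ι _ Q) := by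
    intro y y' hy
    rw [← hιQ, ← hιQ]
    refine hι.eqv (Fin 2) _ _ (fmI_sub (S y') hQ) (fmI_sub (S y) hQ) fun e x hx => ?_
    have e1 := congrFun (congrFun (hQy y') e) (fun i => x i e)
    have e2 := congrFun (congrFun (hQy y) e) (fun i => x i e)
    refine e1.trans (Eq.trans ?_ e2.symm)
    simp only [hy]
    refine hqc (fun i e => c (y (σ i)) e (fun j => x j e)) ⟨fun i => ?_, ?_⟩ e
    · exact (hcF _).fam l₀ x hx
    · intro e' he' i i'
      have hx' : VT R l₀ I (fun j => x (S y j)) :=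
        ⟨fun j => hx.1 _, fun e he j j' => hx.2 e he _ _⟩
      have e3 : ∀ i, c (y (σ i)) e' (fun j => x j e') =
          F (κ (σ i)) e' (fun j => x (S y j) e') := fun i =>
        (congrFun (congrFun (hc' y (σ i)) e') (fun j => x j e')).symm
      exact (e3 i).trans ((hFe e' (hnl e' he') _ _ _ hx').trans (e3 i').symm)
  rcases hS (ι _ Q) with ⟨b, hb⟩ | ⟨j, hj⟩
  · have h0 := hconst 0
    have h1 := hconst 1
    rw [hb] at h0 h1
    rw [h0] at h1
    exact absurd h1 (by decide)
  · obtain ⟨i₀, hi₀⟩ := hσ.2 j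
    have h := hshift (fun m => if m = j then 1 else 0)
      (fun m => if ∃ i, m = σ i ∧ σ (i + 1) = j then 1 else 0) (by
        intro i
        by_cases h : σ (i + 1) = j
        · rw [if_pos ⟨i, rfl, h⟩, if_pos h]
        · rw [if_neg h, if_neg]
          rintro ⟨i', h1, h2⟩
          rw [hσ.1 h1] at h
          exact h h2)
    rw [hj, hj] at h
    simp only at h
    rw [if_pos trivial, if_neg] at h
    · exact absurd h (by decide)
    · rintro ⟨i, h1, h2⟩
      rw [← hi₀] at h1 h2
      have e1 := hσ.1 h1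
      have e2 := hσ.1 h2
      rw [← e1] at e2
      exact one_ne_zero (left_eq_add.1 e2.symm)

end Pool.Agent.H44.GM
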